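import Pool.Agent.W509.GU.Low

/-!
Project GU: operators from `c_0` to `Z` are small on null sequences (`cz`).
-/

set_option autoImplicit false

namespace Pool.Agent.W509.GU
open Finset Filter Topology Pool.Agent.W58.GU

section cz
variable {P : Par} {X : Type} [NormedAddCommGroup X] [NormedSpace ℝ X]

/-- the coordinates of a vector in `c_0` tend to zero -/
lemma coord_fin (M : Model P X) (x : X) {η : ℝ} (hη : 0 < η) :
    ∃ F : Finset ℕ, ∀ a, a ∉ F → |M.e' (Sum.inl a) x| ≤ η := by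
  have h1 := (M.hs x).summable.tendsto_cofinite_zero
  have h2 : ∀ᶠ i in cofinite, ‖M.e' i x • M.e i‖ < η := by
    have := h1.norm
    rw [norm_zero] at this
    exact this.eventually (gt_mem_nhds hη)
  rw [eventually_cofinite] at h2
  have h3 : {a : ℕ | ¬ ‖M.e' (Sum.inl a) x • M.e (Sum.inl a)‖ < η}.Finite := by
    refine Set.Finite.of_finite_image (f := (Sum.inl : ℕ → ℕ ⊕ ℕ)) (h2.subset ?_)
      Sum.inl_injective.injOn
    rintro _ ⟨a, ha, rfl⟩
    exact ha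
  refine ⟨h3.toFinset, fun a ha => ?_⟩
  rw [Set.Finite.mem_toFinset] at ha
  have h4 : ‖M.e' (Sum.inl a) x • M.e (Sum.inl a)‖ < η := by
    by_contra hcon
    exact ha hcon
  have h5 := M.n1 (M.e' (Sum.inl a) x • M.e (Sum.inl a)) a
  rw [map_smul, M.bi, if_pos rfl, smul_eq_mul, mul_one] at h5
  linarith

/-- tails of a vector are small -/
lemma tail_small (M : Model P X) (x : X) {η : ℝ} (hη : 0 < η) :
    ∃ N : ℕ, ∀ f, InK P f → (∀ a ∈ f.support, N ≤ a) → |pr f (M.co x)| ≤ η := by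
  classical
  have h1 := M.hs x
  have h2 : ∀ᶠ S : Finset (ℕ ⊕ ℕ) in atTop, ‖x - ∑ i ∈ S, M.e' i x • M.e i‖ < η := by
    have h3 : Tendsto (fun S : Finset (ℕ ⊕ ℕ) => ‖x - ∑ i ∈ S, M.e' i x • M.e i‖) atTop
        (𝓝 0) := by
      have := (tendsto_const_nhds (x := x)).sub h1
      rw [sub_self] at this
      have := this.norm
      rwa [norm_zero] at this
    exact h3.eventually (gt_mem_nhds hη)
  obtain ⟨S, hS⟩ := h2.exists
  refine ⟨(S.image (Sum.elim (fun _ => 0) (fun a => a + 1))).sup id, fun f hf hfs => ?_⟩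
  have h4 : pr f (M.co x) = pr f (M.co (x - ∑ i ∈ S, M.e' i x • M.e i)) := by
    refine pr_congr fun a ha => ?_
    show M.e' (Sum.inr a) x = M.e' (Sum.inr a) (x - ∑ i ∈ S, M.e' i x • M.e i)
    rw [map_sub, map_sum, Finset.sum_eq_zero, sub_zero]
    intro i hi
    rw [map_smul, M.bi, if_neg, smul_zero]
    rintro rfl
    have h5 : a + 1 ≤ (S.image (Sum.elim (fun _ => 0) (fun a => a + 1))).sup id :=
      Finset.le_sup (f := id) (Finset.mem_image.mpr ⟨Sum.inr a, hi, rfl⟩)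
    have h6 := hfs a ha
    omega
  rw [h4]
  exact (M.abs_pr_co _ hf).trans hS.le

/-- a sparse subsequence -/
lemma sparse (M : Model P X) (h : ℕ → X) (hb : ∀ k, ‖h k‖ ≤ 1)
    (hc : ∀ a, Tendsto (fun k => M.e' (Sum.inl a) (h k)) atTop (𝓝 0)) (I : Set ℕ)
    (hI : I.Infinite) : ∃ κ : ℕ → ℕ, StrictMono κ ∧ (∀ i, κ i ∈ I) ∧
      ∀ (E : Finset ℕ) (a : ℕ), ∑ i ∈ E, |M.e' (Sum.inl a) (h (κ i))| ≤ 2 := by
  classical
  have hstep : ∀ (F : Finset ℕ) (k0 i : ℕ), ∃ (k : ℕ) (F' : Finset ℕ), k0 ≤ k ∧ k ∈ I ∧ F ⊆ F' ∧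
      (∀ a ∈ F, |M.e' (Sum.inl a) (h k)| ≤ (1 / 2 : ℝ) ^ (i + 1)) ∧
      (∀ a, a ∉ F' → |M.e' (Sum.inl a) (h k)| ≤ (1 / 2 : ℝ) ^ (i + 1)) := by
    intro F k0 i
    have h1 : ∀ᶠ k in atTop, ∀ a ∈ F, |M.e' (Sum.inl a) (h k)| ≤ (1 / 2 : ℝ) ^ (i + 1) := by
      rw [Filter.eventually_all_finset]
      intro a _
      have h2 := (hc a).abs
      rw [abs_zero] at h2
      exact (h2.eventually (gt_mem_nhds (show (0 : ℝ) < (1 / 2 : ℝ) ^ (i + 1) by positivity))).mono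
        fun k hk => hk.le
    have h2 : ∃ᶠ k in atTop, k ∈ I := Nat.frequently_atTop_iff_infinite.mpr hI
    obtain ⟨k, hkI, hk1, hk2⟩ := (h2.and_eventually (h1.and (eventually_ge_atTop k0))).exists
    obtain ⟨F', hF'⟩ := coord_fin M (h k) (show (0 : ℝ) < (1 / 2 : ℝ) ^ (i + 1) by positivity)
    exact ⟨k, F ∪ F', hk2, hkI, Finset.subset_union_left, hk1, fun a ha =>
      hF' a fun h => ha (Finset.mem_union_right _ h)⟩
  choose kk FF hk1 hk2 hk3 hk4 hk5 using hstep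
  let U : ℕ → Finset ℕ × ℕ := fun i => Nat.rec (∅, 0)
    (fun i u => (FF u.1 u.2 i, kk u.1 u.2 i + 1)) i
  have hU : ∀ i, U (i + 1) = (FF (U i).1 (U i).2 i, kk (U i).1 (U i).2 i + 1) := fun i => rfl
  set κ : ℕ → ℕ := fun i => kk (U i).1 (U i).2 i with hκ
  have hmono : Monotone fun i => (U i).1 := monotone_nat_of_le_succ fun i => by
    rw [hU]; exact hk3 _ _ _
  refine ⟨κ, strictMono_nat_of_lt_succ fun i => ?_, fun i => hk2 _ _ _, fun E a => ?_⟩
  · have h1 : (U (i + 1)).2 ≤ κ (i + 1) := hk1 _ _ _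
    rw [hU] at h1
    exact h1
  · set L : ℕ → Prop := fun i => (1 / 2 : ℝ) ^ (i + 1) < |M.e' (Sum.inl a) (h (κ i))| with hL
    have hL1 : ∀ i, L i → a ∈ (U (i + 1)).1 := by
      intro i hi
      by_contra hcon
      rw [hU] at hcon
      exact absurd hi (not_lt.mpr (hk5 _ _ _ a hcon))
    have hL2 : ∀ i, a ∈ (U i).1 → ¬ L i := fun i hi => not_lt.mpr (hk4 _ _ _ a hi)
    have hL3 : ∀ i l, i < l → L i → ¬ L l := fun i l hil hi =>
      hL2 l (hmono (by omega : i + 1 ≤ l) (hL1 i hi))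
    have h1 : ∀ i ∈ E, |M.e' (Sum.inl a) (h (κ i))| ≤
        (1 / 2 : ℝ) * (1 / 2 : ℝ) ^ i + (if L i then 1 else 0) := by
      intro i _
      by_cases hi : L i
      · rw [if_pos hi]
        have h2 := (M.n1 (h (κ i)) a).trans (hb _)
        have h3 : (0 : ℝ) ≤ (1 / 2 : ℝ) * (1 / 2 : ℝ) ^ i := by positivity
        linarith
      · rw [if_neg hi, add_zero]
        have := not_lt.mp hi
        rwa [pow_succ, mul_comm] at this
    refine (Finset.sum_le_sum h1).trans ?_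
    rw [Finset.sum_add_distrib, ← Finset.mul_sum]
    have h2 : ∑ i ∈ E, (1 / 2 : ℝ) ^ i ≤ 2 :=
      (summable_geometric_two.sum_le_tsum _ fun i _ => by positivity).trans_eq tsum_geometric_two
    have h3 : ∑ i ∈ E, (if L i then (1 : ℝ) else 0) ≤ 1 := by
      rw [← Finset.sum_filter, Finset.sum_const, nsmul_eq_mul, mul_one]
      have h4 : (E.filter L).card ≤ 1 := by
        rw [Finset.card_le_one]
        intro i hi l hl
        rw [Finset.mem_filter] at hi hl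
        rcases lt_trichotomy i l with h | h | h
        · exact absurd hl.2 (hL3 i l h hi.2)
        · exact h
        · exact absurd hi.2 (hL3 l i h hl.2)
      exact_mod_cast h4
    linarith

/-- combinations of a sparse sequence -/
lemma norm_comb (M : Model P X) (h : ℕ → X) (hz : ∀ k a, M.e' (Sum.inr a) (h k) = 0)
    (hs : ∀ (E : Finset ℕ) (a : ℕ), ∑ i ∈ E, |M.e' (Sum.inl a) (h i)| ≤ 2)
    (E : Finset ℕ) (c : ℕ → ℝ) (hc : ∀ i, |c i| ≤ 1) : ‖∑ i ∈ E, c i • h i‖ ≤ 2 := by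
  refine M.n3 _ 2 (by norm_num) (fun n => ?_) (fun f hf => ?_)
  · rw [map_sum]
    refine (Finset.abs_sum_le_sum_abs _ _).trans (le_trans (Finset.sum_le_sum fun i _ => ?_)
      (hs E n))
    rw [map_smul, smul_eq_mul, abs_mul]
    exact mul_le_of_le_one_left (abs_nonneg _) (hc i)
  · have : (fun a => M.e' (Sum.inr a) (∑ i ∈ E, c i • h i)) = 0 := by
      funext a
      rw [map_sum]
      refine Finset.sum_eq_zero fun i _ => ?_
      rw [map_smul, hz, smul_zero]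
    rw [this, pr_zero_right]
    norm_num

lemma fun_sum (M : Model P X) (h : ℕ → X) (hz : ∀ k a, M.e' (Sum.inr a) (h k) = 0)
    (hs : ∀ (E : Finset ℕ) (a : ℕ), ∑ i ∈ E, |M.e' (Sum.inl a) (h i)| ≤ 2)
    (φ : X →L[ℝ] ℝ) (E : Finset ℕ) : ∑ i ∈ E, |φ (h i)| ≤ ‖φ‖ * 2 := by
  have h1 := norm_comb M h hz hs E (fun i => if 0 ≤ φ (h i) then 1 else -1)
    (fun i => by by_cases hi : 0 ≤ φ (h i) <;> simp [hi])
  have h2 : φ (∑ i ∈ E, (if 0 ≤ φ (h i) then (1 : ℝ) else -1) • h i) = ∑ i ∈ E, |φ (h i)| := by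
    rw [map_sum]
    refine Finset.sum_congr rfl fun i _ => ?_
    rw [map_smul, smul_eq_mul]
    by_cases hi : 0 ≤ φ (h i)
    · rw [if_pos hi, one_mul, abs_of_nonneg hi]
    · rw [if_neg hi, abs_of_neg (not_le.mp hi)]
      ring
  rw [← h2]
  refine (le_abs_self _).trans ((φ.le_opNorm _).trans ?_)
  exact mul_le_mul_of_nonneg_left h1 (norm_nonneg _)

lemma fun_tendsto (M : Model P X) (h : ℕ → X) (hz : ∀ k a, M.e' (Sum.inr a) (h k) = 0)
    (hs : ∀ (E : Finset ℕ) (a : ℕ), ∑ i ∈ E, |M.e' (Sum.inl a) (h i)| ≤ 2)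
    (φ : X →L[ℝ] ℝ) : Tendsto (fun i => |φ (h i)|) atTop (𝓝 0) :=
  (summable_of_sum_le (fun _ => abs_nonneg _) (fun_sum M h hz hs φ)).tendsto_atTop_zero

end cz

theorem cz : S_CZ := by
  intro P X _ _ M T h0 hb0 hz0 hc0 δ hδ
  by_contra hcon
  push Not at hcon
  set I : Set ℕ := {k | ∃ f, InK P f ∧ δ < |pr f (M.co (T (h0 k)))|} with hI
  have hIinf : I.Infinite := by
    rw [← Nat.frequently_atTop_iff_infinite, Filter.frequently_atTop]
    intro k0
    obtain ⟨k, hk, f, hf, hf'⟩ := hcon k0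
    exact ⟨k, hk, f, hf, hf'⟩
  obtain ⟨κ, hκ1, hκ2, hs⟩ := sparse M h0 hb0 hc0 I hIinf
  set h : ℕ → X := fun i => h0 (κ i) with hh
  have hz : ∀ k a, M.e' (Sum.inr a) (h k) = 0 := fun k a => hz0 _ a
  have hf : ∀ i, ∃ f, InK P f ∧ δ < pr f (M.co (T (h i))) := by
    intro i
    obtain ⟨f, hf, hf'⟩ := hκ2 i
    rcases le_or_gt 0 (pr f (M.co (T (h0 (κ i))))) with h1 | h1
    · exact ⟨f, hf, by rwa [abs_of_nonneg h1] at hf'⟩
    · exact ⟨-f, hf.neg, by rw [pr_neg_left]; rwa [abs_of_neg h1] at hf'⟩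
  choose f hfK hfδ using hf
  set ε : ℕ → ℝ := fun j => δ / 8 * (1 / 2) ^ j with hε
  have hε0 : ∀ j, 0 < ε j := fun j => by positivity
  have hε1 : ∀ j, ε j ≤ δ / 8 := fun j =>
    mul_le_of_le_one_right (by positivity) (pow_le_one₀ (by norm_num) (by norm_num))
  have hstep : ∀ (N i0 j : ℕ), ∃ (i N' : ℕ), i0 ≤ i ∧ N ≤ N' ∧
      ∑ a ∈ range N, |M.co (T (h i)) a| ≤ ε j ∧
      ∀ g, InK P g → (∀ a ∈ g.support, N' ≤ a) → |pr g (M.co (T (h i)))| ≤ ε j := by
    intro N i0 j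
    have h1 : Tendsto (fun i => ∑ a ∈ range N, |M.co (T (h i)) a|) atTop (𝓝 0) := by
      have := tendsto_finsetSum (range N) (fun a _ =>
        fun_tendsto M h hz hs ((M.e' (Sum.inr a)).comp T))
      rw [Finset.sum_const_zero] at this
      exact this
    obtain ⟨i, hi1, hi2⟩ := ((h1.eventually (gt_mem_nhds (hε0 j))).and
      (eventually_ge_atTop i0)).exists
    obtain ⟨N', hN'⟩ := tail_small M (T (h i)) (hε0 j)
    exact ⟨i, max N N', hi2, le_max_left _ _, hi1.le, fun g hg hgs =>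
      hN' g hg fun a ha => (le_max_right _ _).trans (hgs a ha)⟩
  choose ii NN hii1 hii2 hii3 hii4 using hstep
  let U : ℕ → ℕ × ℕ := fun j => Nat.rec (0, 0)
    (fun j u => (NN u.1 u.2 j, ii u.1 u.2 j + 1)) j
  have hU : ∀ j, U (j + 1) = (NN (U j).1 (U j).2 j, ii (U j).1 (U j).2 j + 1) := fun j => rfl
  set φ : ℕ → ℕ := fun j => ii (U j).1 (U j).2 j with hφ
  set N : ℕ → ℕ := fun j => (U j).1 with hN
  have hNN : ∀ j, N (j + 1) = NN (U j).1 (U j).2 j := fun j => rfl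
  have hNmono : Monotone N := monotone_nat_of_le_succ fun j => by
    rw [hNN]; exact hii2 _ _ _
  have hφmono : StrictMono φ := strictMono_nat_of_lt_succ fun j => by
    have h1 : (U (j + 1)).2 ≤ φ (j + 1) := hii1 _ _ _
    rw [hU] at h1
    exact h1
  have hlow : ∀ j, ∑ a ∈ range (N j), |M.co (T (h (φ j))) a| ≤ ε j := fun j => hii3 _ _ _
  have hhigh : ∀ j g, InK P g → (∀ a ∈ g.support, N (j + 1) ≤ a) →
      |pr g (M.co (T (h (φ j))))| ≤ ε j := fun j g hg hgs =>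
    hii4 _ _ _ g hg fun a ha => by rw [← hNN]; exact hgs a ha
  -- functionals supported below `N j`
  have hlow' : ∀ j g, InK P g → (∀ a ∈ g.support, a < N j) →
      |pr g (M.co (T (h (φ j))))| ≤ ε j := by
    intro j g hg hgs
    refine le_trans ?_ (hlow j)
    have hsub : g.support ⊆ range (N j) := fun a ha => Finset.mem_range.mpr (hgs a ha)
    rw [pr_eq _ _ hsub]
    refine (Finset.abs_sum_le_sum_abs _ _).trans (Finset.sum_le_sum fun a _ => ?_)
    rw [abs_mul]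
    have e4 : |(g a : ℝ)| ≤ 1 := by
      obtain ⟨w, hw⟩ := hg
      rw [← Rat.cast_abs]
      exact_mod_cast hw.coord.1 a
    exact mul_le_of_le_one_left (abs_nonneg _) e4
  set g : ℕ → (ℕ →₀ ℚ) := fun j => rst {a | N j ≤ a ∧ a < N (j + 1)} (f (φ j)) with hg
  have hgK : ∀ j, InK P (g j) := fun j => (hfK _).rst _
  have hgs : ∀ j, ∀ a ∈ (g j).support, N j ≤ a ∧ a < N (j + 1) := fun j a ha =>
    mem_of_rst_support _ _ ha
  have hdiag : ∀ j, 3 * δ / 4 ≤ pr (g j) (M.co (T (h (φ j)))) := by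
    intro j
    have e1 := pr_split {a | N j ≤ a ∧ a < N (j + 1)} (f (φ j)) (M.co (T (h (φ j))))
    have e2 := pr_split {a | a < N j} (rst {a | N j ≤ a ∧ a < N (j + 1)}ᶜ (f (φ j)))
      (M.co (T (h (φ j))))
    have hK1 : InK P (rst {a | N j ≤ a ∧ a < N (j + 1)}ᶜ (f (φ j))) := (hfK _).rst _
    have e3 := hlow' j _ (hK1.rst {a | a < N j}) fun a ha =>
      (mem_of_rst_support {a | a < N j} _ ha : a ∈ {a | a < N j})
    have e4 := hhigh j _ (hK1.rst {a | a < N j}ᶜ) fun a ha => by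
      have h1 := mem_of_rst_support _ _ ha
      have h2 := mem_of_rst_support _ _ (rst_support _ _ ha)
      rw [Set.mem_compl_iff, Set.mem_ofPred_eq] at h1 h2
      by_contra hcon
      exact h2 ⟨by omega, by omega⟩
    have e5 := hfδ (φ j)
    have e6 := abs_le.mp e3
    have e7 := abs_le.mp e4
    have e8 := hε1 j
    show 3 * δ / 4 ≤ pr (rst {a | N j ≤ a ∧ a < N (j + 1)} (f (φ j))) (M.co (T (h (φ j))))
    linarith [e6.1, e6.2, e7.1, e7.2]
  have hoff : ∀ j l, l ≠ j → |pr (g j) (M.co (T (h (φ l))))| ≤ ε l := by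
    intro j l hlj
    rcases lt_or_gt_of_ne hlj with h1 | h1
    · exact hhigh l _ (hgK j) fun a ha => (hNmono (by omega : l + 1 ≤ j)).trans (hgs j a ha).1
    · exact hlow' l _ (hgK j) fun a ha =>
        lt_of_lt_of_le (hgs j a ha).2 (hNmono (by omega : j + 1 ≤ l))
  -- the index
  set q : ℕ := ⌈4 * ‖T‖ / δ⌉₊ with hq
  set J : ℕ := 2 * q with hJ
  have hmJ : 4 * ‖T‖ / δ < P.m J := by
    have h1 := Nat.le_ceil (4 * ‖T‖ / δ)
    have h2 := P.hm1 J
    have h3 : q < P.m J := by omega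
    have h4 : (q : ℝ) < P.m J := by exact_mod_cast h3
    linarith
  have hnJ : P.m J ^ 2 ≤ P.n J := by
    obtain ⟨a, ha, -, h1⟩ := P.hn J
    refine le_trans ?_ h1
    exact Nat.le_mul_of_pos_right _ (by positivity)
  choose w hw using hgK
  have hF : InK P ((1 / (P.m J : ℚ)) • ∑ k ∈ range (P.n J), g k) :=
    ⟨some J, KW.even J (P.n J) g w (by omega) le_rfl (fun k l hkl _ a ha b hb =>
      lt_of_lt_of_le (hgs k a ha).2 ((hNmono (by omega : k + 1 ≤ l)).trans (hgs l b hb).1))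
      (fun k _ => hw k)⟩
  set Y : X := ∑ l ∈ range (P.n J), h (φ l) with hY
  have hYn : ‖Y‖ ≤ 2 := by
    have h1 := norm_comb M h hz hs ((range (P.n J)).image φ) (fun _ => 1) (fun _ => by simp)
    rw [Finset.sum_image hφmono.injective.injOn] at h1
    simpa [hY] using h1
  have h1 := M.abs_pr_co (T Y) hF
  have h2 : ‖T Y‖ ≤ ‖T‖ * 2 := (T.le_opNorm _).trans (mul_le_mul_of_nonneg_left hYn (norm_nonneg _))
  have h3 : pr ((1 / (P.m J : ℚ)) • ∑ k ∈ range (P.n J), g k) (M.co (T Y)) =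
      1 / (P.m J : ℝ) * ∑ k ∈ range (P.n J), ∑ l ∈ range (P.n J),
        pr (g k) (M.co (T (h (φ l)))) := by
    rw [pr_smul_left, pr_sum_left]
    push_cast
    congr 1
    refine Finset.sum_congr rfl fun k _ => ?_
    have e1 : M.co (T Y) = ∑ l ∈ range (P.n J), M.co (T (h (φ l))) := by
      funext a
      show M.e' (Sum.inr a) (T Y) = _
      rw [hY, map_sum, map_sum, Finset.sum_apply]
      rfl
    rw [e1, pr_sum_right]
  have h4 : ∀ k ∈ range (P.n J), δ / 2 ≤ ∑ l ∈ range (P.n J), pr (g k) (M.co (T (h (φ l)))) := by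
    intro k hk
    rw [← Finset.add_sum_erase _ _ hk]
    have e1 : |∑ l ∈ (range (P.n J)).erase k, pr (g k) (M.co (T (h (φ l))))| ≤ δ / 4 := by
      refine (Finset.abs_sum_le_sum_abs _ _).trans ?_
      refine (Finset.sum_le_sum fun l hl => hoff k l (Finset.ne_of_mem_erase hl)).trans ?_
      rw [hε, ← Finset.mul_sum]
      have e2 : ∑ l ∈ (range (P.n J)).erase k, (1 / 2 : ℝ) ^ l ≤ 2 :=
        (summable_geometric_two.sum_le_tsum _ fun i _ => by positivity).trans_eq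
          tsum_geometric_two
      nlinarith
    have e2 := hdiag k
    have e3 := (abs_le.mp e1).1
    linarith
  have h5 : (P.n J : ℝ) * (δ / 2) ≤ ∑ k ∈ range (P.n J), ∑ l ∈ range (P.n J),
      pr (g k) (M.co (T (h (φ l)))) := by
    have := Finset.sum_le_sum h4
    rwa [Finset.sum_const, Finset.card_range, nsmul_eq_mul] at this
  have hm0 : (0 : ℝ) < P.m J := by exact_mod_cast P.m_pos J
  have h6 : 1 / (P.m J : ℝ) * ((P.n J : ℝ) * (δ / 2)) ≤ ‖T‖ * 2 := by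
    refine le_trans ?_ ((le_abs_self _).trans (h1.trans h2))
    rw [h3]
    exact mul_le_mul_of_nonneg_left h5 (by positivity)
  have h7 : (P.m J : ℝ) ^ 2 ≤ P.n J := by exact_mod_cast hnJ
  have h8 : (P.m J : ℝ) * (δ / 2) ≤ 1 / (P.m J : ℝ) * ((P.n J : ℝ) * (δ / 2)) := by
    have e1 : (P.m J : ℝ) * (δ / 2) = 1 / (P.m J : ℝ) * ((P.m J : ℝ) ^ 2 * (δ / 2)) := by
      field_simp
    rw [e1]
    gcongr
  rw [div_lt_iff₀ hδ] at hmJ
  nlinarith

end Pool.Agent.W509.GU
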