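import Pool.Agent.W58.GU.Stm

/-!
Project GU: lower bound on a tail of `Z` (`low`).
-/

set_option autoImplicit false

namespace Pool.Agent.W509.GU
open Finset Filter Topology Pool.Agent.W58.GU

lemma rst_apply {R : Type} [Zero R] (A : Set ℕ) [DecidablePred (· ∈ A)] (f : ℕ →₀ R) (a : ℕ) :
    rst A f a = if a ∈ A then f a else 0 := by
  classical
  unfold rst
  rw [Finsupp.filter_apply]
  by_cases h : a ∈ A <;> simp [h]

lemma rst_support {R : Type} [Zero R] (A : Set ℕ) (f : ℕ →₀ R) :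
    (rst A f).support ⊆ f.support := by
  classical
  intro a ha
  rw [Finsupp.mem_support_iff] at *
  rw [rst_apply] at ha
  intro h
  simp [h] at ha

lemma mem_of_rst_support {R : Type} [Zero R] (A : Set ℕ) (f : ℕ →₀ R) {a : ℕ}
    (ha : a ∈ (rst A f).support) : a ∈ A := by
  classical
  rw [Finsupp.mem_support_iff, rst_apply] at ha
  by_contra h
  simp [h] at ha

/-- splitting of a functional -/
lemma pr_split (A : Set ℕ) (f : ℕ →₀ ℚ) (x : ℕ → ℝ) :
    pr f x = pr (rst A f) x + pr (rst Aᶜ f) x := by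
  classical
  rw [pr_eq (rst A f) x (rst_support A f), pr_eq (rst Aᶜ f) x (rst_support Aᶜ f),
    ← Finset.sum_add_distrib]
  refine Finset.sum_congr rfl fun a _ => ?_
  rw [rst_apply, rst_apply]
  by_cases h : a ∈ A <;> simp [h]

lemma pr_rst_of {A : Set ℕ} (f : ℕ →₀ ℚ) {x : ℕ → ℝ} (h : ∀ a, a ∉ A → x a = 0) :
    pr (rst A f) x = pr f x := by
  rw [pr_split A f x]
  have : pr (rst Aᶜ f) x = 0 := pr_eq_zero fun a ha => h a (mem_of_rst_support _ _ ha)
  rw [this, add_zero]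

/-- diagonal multiplication -/
noncomputable def Dm (d : ℕ → ℝ) (v : ℕ →₀ ℝ) : ℕ →₀ ℝ :=
  Finsupp.onFinset v.support (fun a => d a * v a) (by
    intro a h
    rw [Finsupp.mem_support_iff]
    intro h0
    apply h
    rw [h0, mul_zero])

lemma Dm_apply (d : ℕ → ℝ) (v : ℕ →₀ ℝ) (a : ℕ) : Dm d v a = d a * v a := rfl

lemma nz_Dm_le {P : Par} {d : ℕ → ℝ} {c : ℝ} (hc : ∀ a, |d a| ≤ c) (hc0 : 0 ≤ c)
    (v : ℕ →₀ ℝ) : nz P (Dm d v) ≤ c * nz P v := by
  have : nz P (Dm d v) ≤ nz P (c • v) := nz_mono fun a => by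
    rw [Dm_apply, Finsupp.smul_apply, smul_eq_mul, abs_mul, abs_mul, abs_of_nonneg hc0]
    exact mul_le_mul_of_nonneg_right (hc a) (abs_nonneg _)
  rwa [nz_smul, abs_of_nonneg hc0] at this

lemma nz_Dm_ge {P : Par} {d : ℕ → ℝ} {δ : ℝ} (hδ : 0 < δ) (hd : ∀ a, δ ≤ |d a|)
    (v : ℕ →₀ ℝ) : δ * nz P v ≤ nz P (Dm d v) := by
  have : nz P (δ • v) ≤ nz P (Dm d v) := nz_mono fun a => by
    rw [Dm_apply, Finsupp.smul_apply, smul_eq_mul, abs_mul, abs_mul, abs_of_pos hδ]
    exact mul_le_mul_of_nonneg_right (hd a) (abs_nonneg _)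
  rwa [nz_smul, abs_of_pos hδ] at this

section low
variable {P : Par} {X : Type} [NormedAddCommGroup X] [NormedSpace ℝ X]

/-- the diagonal -/
noncomputable def dg (M : Model P X) (T : X →L[ℝ] X) (a : ℕ) : ℝ :=
  M.e' (Sum.inr a) (T (M.e (Sum.inr a)))

/-- the off diagonal part -/
noncomputable def K0 (M : Model P X) (T : X →L[ℝ] X) (v : ℕ →₀ ℝ) : ℕ → ℝ :=
  fun a => M.co (T (M.emb v)) a - dg M T a * v a

lemma dg_le (M : Model P X) (T : X →L[ℝ] X) (a : ℕ) : |dg M T a| ≤ ‖T‖ := by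
  unfold dg
  have h1 := M.abs_pr_co (T (M.e (Sum.inr a))) (InK.single P a)
  rw [pr_single] at h1
  have h2 : |M.e' (Sum.inr a) (T (M.e (Sum.inr a)))| ≤ ‖T (M.e (Sum.inr a))‖ := by
    simpa [Model.co] using h1
  refine h2.trans ((T.le_opNorm _).trans ?_)
  calc ‖T‖ * ‖M.e (Sum.inr a)‖ ≤ ‖T‖ * 1 :=
        mul_le_mul_of_nonneg_left (M.norm_e _) (norm_nonneg _)
    _ = ‖T‖ := mul_one _

lemma abs_pr_T (M : Model P X) (T : X →L[ℝ] X) (v : ℕ →₀ ℝ) {f : ℕ →₀ ℚ} (hf : InK P f) :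
    |pr f (M.co (T (M.emb v)))| ≤ ‖T‖ * nz P v := by
  refine (M.abs_pr_co _ hf).trans ((T.le_opNorm _).trans ?_)
  rw [M.norm_emb]

lemma K0_eq (M : Model P X) (T : X →L[ℝ] X) (v : ℕ →₀ ℝ) :
    K0 M T v = M.co (T (M.emb v)) + (-1 : ℝ) • (Dm (dg M T) v : ℕ → ℝ) := by
  funext a
  simp [K0, Dm_apply]
  ring

lemma pr_K0 (M : Model P X) (T : X →L[ℝ] X) (v : ℕ →₀ ℝ) (f : ℕ →₀ ℚ) :
    pr f (K0 M T v) = pr f (M.co (T (M.emb v))) - pr f (Dm (dg M T) v) := by
  rw [K0_eq, pr_add_right, pr_smul_right]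
  ring

lemma abs_pr_K0 (M : Model P X) (T : X →L[ℝ] X) (v : ℕ →₀ ℝ) {f : ℕ →₀ ℚ} (hf : InK P f) :
    |pr f (K0 M T v)| ≤ 2 * ‖T‖ * nz P v := by
  rw [pr_K0]
  have h1 := abs_pr_T M T v hf
  have h2 := (le_nz hf (Dm (dg M T) v)).trans (nz_Dm_le (dg_le M T) (norm_nonneg _) v)
  have h3 := abs_sub (pr f (M.co (T (M.emb v)))) (pr f (Dm (dg M T) v))
  linarith

/-- the vector of the statement -/
lemma vec_eq (M : Model P X) (T : X →L[ℝ] X) (t : ℝ) (v : ℕ →₀ ℝ) :
    (fun a => (1 - t) * (M.e' (Sum.inr a) (T (M.e (Sum.inr a)))) * v a +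
      t * M.co (T (M.emb v)) a) = (Dm (dg M T) v : ℕ → ℝ) + t • K0 M T v := by
  funext a
  simp only [Pi.add_apply, Pi.smul_apply, smul_eq_mul, Dm_apply, K0, dg]
  ring

lemma pr_vec (M : Model P X) (T : X →L[ℝ] X) (t : ℝ) (v : ℕ →₀ ℝ) (f : ℕ →₀ ℚ) :
    pr f ((Dm (dg M T) v : ℕ → ℝ) + t • K0 M T v) =
      pr f (Dm (dg M T) v) + t * pr f (K0 M T v) := by
  rw [pr_add_right, pr_smul_right]

/-- finitely many coordinates are small on a tail -/
lemma shr_fin (h1 : S_SHR) (M : Model P X) (T : X →L[ℝ] X) (u : ℕ) (η : ℝ) (hη : 0 < η) :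
    ∃ s, u ≤ s ∧ ∀ v : ℕ →₀ ℝ, (∀ a ∈ v.support, s ≤ a) → Bd P 1 v →
      ∑ a ∈ range u, |M.co (T (M.emb v)) a| ≤ η := by
  have h2 : ∀ a : ℕ, ∃ N : ℕ, ∀ x : ℕ →₀ ℝ, (∀ b ∈ x.support, N ≤ b) → Bd P 1 x →
      |((M.e' (Sum.inr a)).comp T) (M.emb x)| ≤ η / (u + 1) := fun a =>
    h1 P X M ((M.e' (Sum.inr a)).comp T) (η / (u + 1)) (by positivity)
  choose N hN using h2
  refine ⟨max u ((range u).sup N), le_max_left _ _, fun v hv hb => ?_⟩
  have h3 : ∀ a ∈ range u, |M.co (T (M.emb v)) a| ≤ η / (u + 1) := by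
    intro a ha
    refine hN a v (fun b hb' => ?_) hb
    exact (Finset.le_sup ha).trans ((le_max_right _ _).trans (hv b hb'))
  refine (Finset.sum_le_sum h3).trans ?_
  rw [Finset.sum_const, Finset.card_range, nsmul_eq_mul, mul_div_assoc', div_le_iff₀ (by positivity)]
  nlinarith

/-- the choice of one window -/
lemma window (h1 : S_SHR) (M : Model P X) (T : X →L[ℝ] X) {δ : ℝ} (hδ : 0 < δ)
    (hd : ∀ a, δ ≤ |dg M T a|)
    (hno : ∀ (N : ℕ) (c : ℝ), 0 < c → ∃ t : ℝ, 0 ≤ t ∧ t ≤ 1 ∧ ∃ x : ℕ →₀ ℝ,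
      (∀ a ∈ x.support, N ≤ a) ∧ ∃ C : ℝ, (∀ f, InK P f → (∀ a ∈ f.support, N ≤ a) →
        |pr f ((Dm (dg M T) x : ℕ → ℝ) + t • K0 M T x)| ≤ C) ∧ C < c * nz P x)
    (u : ℕ) (η : ℝ) (hη : 0 < η) :
    ∃ (s : ℕ) (t : ℝ) (v : ℕ →₀ ℝ), u ≤ s ∧ δ / (4 * ‖T‖ + 4) ≤ t ∧ t ≤ 1 ∧
      (∀ a ∈ v.support, s ≤ a) ∧ nz P v = 1 ∧
      (∑ a ∈ range u, |M.co (T (M.emb v)) a| ≤ η) ∧
      ∀ f, InK P f → (∀ a ∈ f.support, s ≤ a) →
        |pr f ((Dm (dg M T) v : ℕ → ℝ) + t • K0 M T v)| ≤ η := by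
  obtain ⟨s, hus, hs⟩ := shr_fin h1 M T u η hη
  obtain ⟨t, ht0, ht1, x, hx, C, hC, hCx⟩ := hno s (min η (δ / 2)) (by positivity)
  have hC0 : 0 ≤ C := by
    have := hC 0 (InK.zero P) (by simp)
    exact (abs_nonneg _).trans this
  have hx0 : 0 < nz P x := by
    by_contra hcon
    have h0 : nz P x = 0 := le_antisymm (not_lt.mp hcon) (nz_nonneg x)
    rw [h0, mul_zero] at hCx
    linarith
  set v : ℕ →₀ ℝ := (nz P x)⁻¹ • x with hv
  have hvn : nz P v = 1 := by
    rw [hv, nz_smul, abs_of_pos (inv_pos.mpr hx0), inv_mul_cancel₀ hx0.ne']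
  have hvs : ∀ a ∈ v.support, s ≤ a := fun a ha => hx a (Finsupp.support_smul ha)
  have hvec : (Dm (dg M T) v : ℕ → ℝ) + t • K0 M T v =
      (nz P x)⁻¹ • ((Dm (dg M T) x : ℕ → ℝ) + t • K0 M T x) := by
    funext a
    simp only [Pi.add_apply, Pi.smul_apply, smul_eq_mul, Dm_apply, K0, hv, Finsupp.smul_apply,
      Model.emb_smul, map_smul, Model.co_smul]
    ring
  have hbd : ∀ f, InK P f → (∀ a ∈ f.support, s ≤ a) →
      |pr f ((Dm (dg M T) v : ℕ → ℝ) + t • K0 M T v)| ≤ min η (δ / 2) := by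
    intro f hf hfs
    rw [hvec, pr_smul_right, abs_mul, abs_of_pos (inv_pos.mpr hx0)]
    have h2 := hC f hf hfs
    calc (nz P x)⁻¹ * |pr f ((Dm (dg M T) x : ℕ → ℝ) + t • K0 M T x)|
        ≤ (nz P x)⁻¹ * (min η (δ / 2) * nz P x) :=
          mul_le_mul_of_nonneg_left (h2.trans hCx.le) (inv_pos.mpr hx0).le
      _ = min η (δ / 2) := by field_simp
  refine ⟨s, t, v, hus, ?_, ht1, hvs, hvn, hs v hvs (Bd_iff.mpr hvn.le), fun f hf hfs =>
    (hbd f hf hfs).trans (min_le_left _ _)⟩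
  -- the lower bound for `t`
  have h2 : nz P (Dm (dg M T) v) ≤ δ / 2 + 2 * t * ‖T‖ := by
    refine nz_le fun f hf => ?_
    have e1 : pr (rst {a | s ≤ a} f) (Dm (dg M T) v) = pr f (Dm (dg M T) v) := by
      refine pr_rst_of f fun a ha => ?_
      rw [Dm_apply]
      have : v a = 0 := by
        by_contra hne
        exact ha (hvs a (Finsupp.mem_support_iff.mpr hne))
      rw [this, mul_zero]
    rw [← e1]
    have hfr : InK P (rst {a | s ≤ a} f) := hf.rst _
    have e2 := hbd _ hfr fun a ha => mem_of_rst_support _ _ ha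
    rw [pr_vec] at e2
    have e3 := abs_pr_K0 M T v hfr
    rw [hvn, mul_one] at e3
    have e4 : |t * pr (rst {a | s ≤ a} f) (K0 M T v)| ≤ t * (2 * ‖T‖) := by
      rw [abs_mul, abs_of_nonneg ht0]
      exact mul_le_mul_of_nonneg_left e3 ht0
    have e5 : |pr (rst {a | s ≤ a} f) (Dm (dg M T) v)| ≤
        |pr (rst {a | s ≤ a} f) (Dm (dg M T) v) + t * pr (rst {a | s ≤ a} f) (K0 M T v)| +
        |t * pr (rst {a | s ≤ a} f) (K0 M T v)| := by
      have := abs_sub (pr (rst {a | s ≤ a} f) (Dm (dg M T) v) +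
        t * pr (rst {a | s ≤ a} f) (K0 M T v)) (t * pr (rst {a | s ≤ a} f) (K0 M T v))
      rwa [add_sub_cancel_right] at this
    have e6 := min_le_right η (δ / 2)
    linarith
  have h3 := nz_Dm_ge (P := P) hδ hd v
  rw [hvn, mul_one] at h3
  have h4 : δ / 2 ≤ 2 * t * ‖T‖ := by linarith
  rw [div_le_iff₀ (by have := norm_nonneg T; linarith)]
  nlinarith [norm_nonneg T]

end low

theorem low (h1 : S_SHR) (h2 : S_BLK) (h3 : S_OPR) (h4 : S_MUL) : S_LOW := by
  intro P X _ _ _ M T δ hδ hd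
  by_contra hcon
  have hd' : ∀ a, δ ≤ |dg M T a| := hd
  have hno : ∀ (N : ℕ) (c : ℝ), 0 < c → ∃ t : ℝ, 0 ≤ t ∧ t ≤ 1 ∧ ∃ x : ℕ →₀ ℝ,
      (∀ a ∈ x.support, N ≤ a) ∧ ∃ C : ℝ, (∀ f, InK P f → (∀ a ∈ f.support, N ≤ a) →
        |pr f ((Dm (dg M T) x : ℕ → ℝ) + t • K0 M T x)| ≤ C) ∧ C < c * nz P x := by
    intro N c hc
    by_contra h5
    apply hcon
    refine ⟨N, c, hc, fun t ht0 ht1 x hx C hC => ?_⟩
    by_contra h6
    exact h5 ⟨t, ht0, ht1, x, hx, C, fun f hf hfs => by rw [← vec_eq]; exact hC f hf hfs,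
      not_le.mp h6⟩
  set τ : ℝ := δ / (4 * ‖T‖ + 4) with hτ
  have hτ0 : 0 < τ := by have := norm_nonneg T; positivity
  set η : ℝ := δ * τ / 16 with hη
  have hη0 : 0 < η := by positivity
  have hwin := fun (u k : ℕ) => window h1 M T hδ hd' hno u (η / 2 ^ k) (by positivity)
  choose S Tt V hS1 hS2 hS3 hS4 hS5 hS6 hS7 using hwin
  -- the recursion
  let U : ℕ → ℕ := fun k => Nat.rec 0 (fun k u => max (S u k) ((V u k).support.sup id + 1)) k
  have hU : ∀ k, U (k + 1) = max (S (U k) k) ((V (U k) k).support.sup id + 1) := fun k => rfl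
  set s : ℕ → ℕ := fun k => S (U k) k with hs
  set t : ℕ → ℝ := fun k => Tt (U k) k with ht
  set v : ℕ → (ℕ →₀ ℝ) := fun k => V (U k) k with hv
  have hUs : ∀ k, U k ≤ s k := fun k => hS1 _ _
  have hsU : ∀ k, s k ≤ U (k + 1) := fun k => by rw [hU]; exact le_max_left _ _
  have htτ : ∀ k, τ ≤ t k := fun k => hS2 _ _
  have ht1 : ∀ k, t k ≤ 1 := fun k => hS3 _ _
  have ht0 : ∀ k, 0 < t k := fun k => hτ0.trans_le (htτ k)
  have hvs : ∀ k, ∀ a ∈ (v k).support, s k ≤ a := fun k => hS4 _ _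
  have hvU : ∀ k, ∀ a ∈ (v k).support, a < U (k + 1) := fun k a ha => by
    rw [hU]
    have h5 : a ≤ (V (U k) k).support.sup id := Finset.le_sup (f := id) ha
    exact lt_of_lt_of_le (by omega) (le_max_right _ _)
  have hvn : ∀ k, nz P (v k) = 1 := fun k => hS5 _ _
  have hvc : ∀ k, ∑ a ∈ range (U k), |M.co (T (M.emb (v k))) a| ≤ η / 2 ^ k := fun k => hS6 _ _
  have hvf : ∀ k, ∀ f, InK P f → (∀ a ∈ f.support, s k ≤ a) →
      |pr f ((Dm (dg M T) (v k) : ℕ → ℝ) + t k • K0 M T (v k))| ≤ η / 2 ^ k := fun k => hS7 _ _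
  have hUmono : Monotone U := monotone_nat_of_le_succ fun k => (hUs k).trans (hsU k)
  have hLt : ∀ k l, k < l → Lt (v k).support (v l).support := fun k l hkl a ha b hb =>
    lt_of_lt_of_le (hvU k a ha) ((hUmono (by omega : k + 1 ≤ l)).trans ((hUs l).trans (hvs l b hb)))
  -- the union of the windows
  set W : Set ℕ := {a | ∃ k, s k ≤ a ∧ a < U (k + 1)} with hW
  have hWgap : ∀ k a, a ∈ W → U k ≤ a → s k ≤ a := by
    rintro k a ⟨l, hl1, hl2⟩ hka
    rcases lt_trichotomy k l with h | h | h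
    · exact (hsU k).trans ((hUmono (by omega : k + 1 ≤ l)).trans ((hUs l).trans hl1))
    · subst h; exact hl1
    · exact absurd (lt_of_lt_of_le hl2 ((hUmono (by omega : l + 1 ≤ k)).trans hka)) (lt_irrefl _)
  have hsmall : ∀ k, ∀ f, InK P f → (∀ a ∈ f.support, a ∈ W) →
      |pr f ((Dm (dg M T) (v k) : ℕ → ℝ) + t k • K0 M T (v k))| ≤ 2 * (η / 2 ^ k) := by
    intro k f hf hfW
    rw [pr_split {a | U k ≤ a} f]
    have e1 := hvf k (rst {a | U k ≤ a} f) (hf.rst _) fun a ha =>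
      hWgap k a (hfW a (rst_support _ _ ha)) (mem_of_rst_support _ _ ha)
    have e2 : |pr (rst {a | U k ≤ a}ᶜ f) ((Dm (dg M T) (v k) : ℕ → ℝ) + t k • K0 M T (v k))| ≤
        η / 2 ^ k := by
      refine le_trans ?_ (hvc k)
      have hsub : (rst {a | U k ≤ a}ᶜ f).support ⊆ range (U k) := by
        intro a ha
        have := mem_of_rst_support _ _ ha
        rw [Finset.mem_range]
        exact not_le.mp this
      rw [pr_eq _ _ hsub]
      refine (Finset.abs_sum_le_sum_abs _ _).trans (Finset.sum_le_sum fun a ha => ?_)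
      rw [Finset.mem_range] at ha
      have hva : v k a = 0 := by
        by_contra hne
        have := hvs k a (Finsupp.mem_support_iff.mpr hne)
        have := hUs k
        omega
      have e3 : ((Dm (dg M T) (v k) : ℕ → ℝ) + t k • K0 M T (v k)) a =
          t k * M.co (T (M.emb (v k))) a := by
        simp only [Pi.add_apply, Pi.smul_apply, smul_eq_mul, Dm_apply, K0, hva]
        ring
      rw [e3, abs_mul, abs_mul, abs_of_pos (ht0 k)]
      have e4 : |((rst {a | U k ≤ a}ᶜ f) a : ℝ)| ≤ 1 := by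
        obtain ⟨w, hw⟩ := hf.rst {a | U k ≤ a}ᶜ
        rw [← Rat.cast_abs]
        exact_mod_cast hw.coord.1 a
      have e5 : t k * |M.co (T (M.emb (v k))) a| ≤ |M.co (T (M.emb (v k))) a| :=
        mul_le_of_le_one_left (abs_nonneg _) (ht1 k)
      have e6 : 0 ≤ t k * |M.co (T (M.emb (v k))) a| := mul_nonneg (ht0 k).le (abs_nonneg _)
      calc |((rst {a | U k ≤ a}ᶜ f) a : ℝ)| * (t k * |M.co (T (M.emb (v k))) a|)
          ≤ 1 * (t k * |M.co (T (M.emb (v k))) a|) := mul_le_mul_of_nonneg_right e4 e6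
        _ ≤ _ := by rw [one_mul]; exact e5
    have e3 := abs_add_le (pr (rst {a | U k ≤ a} f)
      ((Dm (dg M T) (v k) : ℕ → ℝ) + t k • K0 M T (v k)))
      (pr (rst {a | U k ≤ a}ᶜ f) ((Dm (dg M T) (v k) : ℕ → ℝ) + t k • K0 M T (v k)))
    linarith
  -- values of combinations
  have hcomb : ∀ (b : ℕ →₀ ℝ) (r : ℕ → ℝ) (k : ℕ), ∀ a ∈ (v k).support,
      (∑ l ∈ b.support, r l • v l : ℕ →₀ ℝ) a = (if k ∈ b.support then r k * v k a else 0) := by
    intro b r k a ha
    rw [Finsupp.finsetSum_apply]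
    have hz : ∀ l, l ≠ k → v l a = 0 := by
      intro l hlk
      by_contra hne
      have hl := Finsupp.mem_support_iff.mpr hne
      rcases lt_or_gt_of_ne hlk with h | h
      · exact absurd (hLt l k h a hl a ha) (lt_irrefl _)
      · exact absurd (hLt k l h a ha a hl) (lt_irrefl _)
    by_cases hk : k ∈ b.support
    · rw [if_pos hk, Finset.sum_eq_single k]
      · simp
      · intro l _ hlk
        simp [hz l hlk]
      · intro h; exact absurd hk h
    · rw [if_neg hk]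
      refine Finset.sum_eq_zero fun l hl => ?_
      have : l ≠ k := fun h => hk (h ▸ hl)
      simp [hz l this]
  have hcomb0 : ∀ (b : ℕ →₀ ℝ) (r : ℕ → ℝ) (a : ℕ), (∀ k, a ∉ (v k).support) →
      (∑ l ∈ b.support, r l • v l : ℕ →₀ ℝ) a = 0 := by
    intro b r a ha
    rw [Finsupp.finsetSum_apply]
    refine Finset.sum_eq_zero fun l _ => ?_
    have : v l a = 0 := Finsupp.notMem_support_iff.mp (ha l)
    simp [this]
  -- the main estimate
  have hmain : ∀ b : ℕ →₀ ℝ, ∃ f, InK P f ∧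
      δ / 4 * nz P (∑ l ∈ b.support, b l • v l) ≤
        |pr f (K0 M T (∑ l ∈ b.support, b l • v l))| := by
    intro b
    set y : ℕ →₀ ℝ := ∑ l ∈ b.support, b l • v l with hy
    set y1 : ℕ →₀ ℝ := ∑ l ∈ b.support, (b l / t l) • v l with hy1
    rcases (nz_nonneg (P := P) y).eq_or_lt with hy0 | hy0
    · exact ⟨0, InK.zero P, by rw [← hy0, mul_zero]; exact abs_nonneg _⟩
    have hb : ∀ k, |b k| ≤ nz P y := by
      intro k
      have e1 : nz P (b k • v k) ≤ nz P y := by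
        refine nz_mono fun a => ?_
        by_cases ha : a ∈ (v k).support
        · rw [hy, hcomb b b k a ha]
          by_cases hk : k ∈ b.support
          · rw [if_pos hk]; simp
          · rw [if_neg hk]
            have : b k = 0 := Finsupp.notMem_support_iff.mp hk
            simp [this]
        · have : v k a = 0 := Finsupp.notMem_support_iff.mp ha
          simp [this]
      rwa [nz_smul, hvn k, mul_one] at e1
    have hyy1 : nz P y ≤ nz P y1 := by
      refine nz_mono fun a => ?_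
      by_cases ha : ∃ k, a ∈ (v k).support
      · obtain ⟨k, hk⟩ := ha
        rw [hy, hy1, hcomb b b k a hk, hcomb b (fun l => b l / t l) k a hk]
        by_cases hkb : k ∈ b.support
        · rw [if_pos hkb, if_pos hkb, abs_mul, abs_mul, abs_div, abs_of_pos (ht0 k)]
          refine mul_le_mul_of_nonneg_right ?_ (abs_nonneg _)
          rw [le_div_iff₀ (ht0 k)]
          exact mul_le_of_le_one_right (abs_nonneg _) (ht1 k)
        · rw [if_neg hkb, if_neg hkb]
      · push Not at ha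
        rw [hy, hy1, hcomb0 b b a ha, hcomb0 b (fun l => b l / t l) a ha]
    have e1 := nz_Dm_ge (P := P) hδ hd' y1
    have e2 : δ / 2 * nz P y < nz P (Dm (dg M T) y1) := by
      have : δ * nz P y ≤ δ * nz P y1 := mul_le_mul_of_nonneg_left hyy1 hδ.le
      nlinarith
    obtain ⟨f0, hf0, hf0'⟩ := lt_nz e2
    set f := rst W f0 with hf
    have hfK : InK P f := hf0.rst W
    have hfW : ∀ a ∈ f.support, a ∈ W := fun a ha => mem_of_rst_support _ _ ha
    have e3 : pr f (Dm (dg M T) y1) = pr f0 (Dm (dg M T) y1) := by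
      refine pr_rst_of f0 fun a ha => ?_
      rw [Dm_apply]
      have : y1 a = 0 := by
        refine hcomb0 b (fun l => b l / t l) a fun k hk => ha ⟨k, hvs k a hk, hvU k a hk⟩
      rw [this, mul_zero]
    have e4 : pr f (Dm (dg M T) y1) + pr f (K0 M T y) = ∑ l ∈ b.support, b l / t l *
        pr f ((Dm (dg M T) (v l) : ℕ → ℝ) + t l • K0 M T (v l)) := by
      have e5 : (Dm (dg M T) y1 : ℕ → ℝ) + K0 M T y = ∑ l ∈ b.support, (b l / t l) •
          ((Dm (dg M T) (v l) : ℕ → ℝ) + t l • K0 M T (v l)) := by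
        funext a
        have e6 : M.co (T (M.emb y)) a = ∑ l ∈ b.support, b l * M.co (T (M.emb (v l))) a := by
          rw [hy, M.emb_sum, map_sum]
          show M.e' (Sum.inr a) (∑ l ∈ b.support, T (M.emb (b l • v l))) = _
          rw [map_sum]
          refine Finset.sum_congr rfl fun l _ => ?_
          rw [M.emb_smul, map_smul, map_smul]
          rfl
        have e7 : y a = ∑ l ∈ b.support, b l * v l a := by
          rw [hy, Finsupp.finsetSum_apply]
          refine Finset.sum_congr rfl fun l _ => ?_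
          simp
        have e8 : y1 a = ∑ l ∈ b.support, b l / t l * v l a := by
          rw [hy1, Finsupp.finsetSum_apply]
          refine Finset.sum_congr rfl fun l _ => ?_
          simp
        rw [Pi.add_apply, Finset.sum_apply, Dm_apply]
        simp only [K0]
        rw [e6, e7, e8, Finset.mul_sum, Finset.mul_sum, ← Finset.sum_sub_distrib,
          ← Finset.sum_add_distrib]
        refine Finset.sum_congr rfl fun l _ => ?_
        simp only [Pi.add_apply, Pi.smul_apply, smul_eq_mul, Dm_apply, K0]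
        have := (ht0 l).ne'
        field_simp
      rw [← pr_add_right, e5, pr_sum_right]
      refine Finset.sum_congr rfl fun l _ => ?_
      rw [pr_smul_right]
    have e5 : |pr f (Dm (dg M T) y1) + pr f (K0 M T y)| ≤ δ / 4 * nz P y := by
      rw [e4]
      refine (Finset.abs_sum_le_sum_abs _ _).trans ?_
      have e6 : ∀ l ∈ b.support, |b l / t l *
          pr f ((Dm (dg M T) (v l) : ℕ → ℝ) + t l • K0 M T (v l))| ≤
          nz P y / τ * (2 * η) * (1 / 2) ^ l := by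
        intro l _
        rw [abs_mul, abs_div, abs_of_pos (ht0 l)]
        have e7 : |b l| / t l ≤ nz P y / τ := by
          have := hb l
          have := htτ l
          gcongr
        have e8 := hsmall l f hfK hfW
        calc |b l| / t l * |pr f ((Dm (dg M T) (v l) : ℕ → ℝ) + t l • K0 M T (v l))|
            ≤ nz P y / τ * (2 * (η / 2 ^ l)) :=
              mul_le_mul e7 e8 (abs_nonneg _) (by positivity)
          _ = _ := by rw [one_div, inv_pow]; ring
      refine (Finset.sum_le_sum e6).trans ?_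
      rw [← Finset.mul_sum]
      have e7 : ∑ l ∈ b.support, (1 / 2 : ℝ) ^ l ≤ 2 :=
        (summable_geometric_two.sum_le_tsum _ fun i _ => by positivity).trans_eq
          tsum_geometric_two
      have e8 : 0 ≤ nz P y / τ * (2 * η) := by positivity
      refine (mul_le_mul_of_nonneg_left e7 e8).trans ?_
      rw [hη]
      have : nz P y / τ * (2 * (δ * τ / 16)) * 2 = δ / 4 * nz P y := by
        field_simp
        ring
      rw [this]
    refine ⟨f, hfK, ?_⟩
    rw [← e3] at hf0'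
    have e6 : |pr f (Dm (dg M T) y1)| ≤ |pr f (Dm (dg M T) y1) + pr f (K0 M T y)| +
        |pr f (K0 M T y)| := by
      have := abs_sub (pr f (Dm (dg M T) y1) + pr f (K0 M T y)) (pr f (K0 M T y))
      rwa [add_sub_cancel_right] at this
    have e7 := le_abs_self (pr f (Dm (dg M T) y1))
    linarith
  -- the rapidly increasing sequence
  obtain ⟨y, c, j, hy1, hy2, hy3⟩ := h2 P v hLt hvn
  have hT0 : (0 : ℝ) < ‖T‖ + 1 := by have := norm_nonneg T; linarith
  obtain ⟨D, -, hD⟩ := h4 P X M (fun i => Sum.elim (fun _ => 0) (fun a => dg M T a / (‖T‖ + 1)) i) (by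
    intro i
    rcases i with n | a
    · simp
    · simp only [Sum.elim_inr]
      rw [abs_div, abs_of_pos hT0, div_le_one hT0]
      have := dg_le M T a
      linarith)
  obtain ⟨k0, hk0⟩ := h3 P X M (T - (‖T‖ + 1) • D) (by
    intro a
    rw [sub_apply, smul_apply, map_sub, map_smul, hD,
      M.bi]
    simp only [Sum.elim_inr, if_true, smul_eq_mul]
    show dg M T a - _ = 0
    field_simp
    ring) 4 y j (by norm_num) hy1 (δ / 8) (by positivity)
  obtain ⟨f, hf, hf'⟩ := hmain (c k0)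
  rw [← hy3 k0, hy2 k0, mul_one] at hf'
  have h5 := hk0 k0 le_rfl f hf
  have h6 : M.co ((T - (‖T‖ + 1) • D) (M.emb (y k0))) = K0 M T (y k0) := by
    funext a
    show M.e' (Sum.inr a) ((T - (‖T‖ + 1) • D) (M.emb (y k0))) = _
    rw [sub_apply, smul_apply, map_sub, map_smul, hD,
      M.e'_emb]
    simp only [Sum.elim_inr, smul_eq_mul, K0]
    show M.co (T (M.emb (y k0))) a - _ = _
    field_simp
  rw [h6] at h5
  linarith

end Pool.Agent.W509.GU
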